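import Pool.Prelude.Def_F_9bd5e397
import Pool.Agent.Work.MP_327896_co.Unif
import Pool.Agent.Work.MP_327896_co.Greedy

/-!
An upper bound for the normalised maximum ratio of chromatic number to clique number.
-/

namespace Pool.Agent.Results.MP_327896_co.Limsup

open Filter Topology Naffefad5 Pool.Agent.Work.MP_327896_co

lemma ratio_le {C L : ℝ} (hC : 1 ≤ C) (hL : 0 < L) {n : ℕ}
    (h : ∀ (G : SimpleGraph (Fin n)) (s t : ℕ) (X : Finset (Fin n)),
      C * Real.exp (1.30591 * Real.sqrt (s * t)) ≤ X.card →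
      (∃ S ⊆ X, G.IsNClique (s + 1) S) ∨ ∃ S ⊆ X, G.IsNIndepSet (t + 1) S) :
    maxChromaticCliqueRatio n ≤ n * 1.30591 ^ 2 / L ^ 2 + C * Real.exp L := by
  refine ciSup_le fun G => ?_
  have hE : 0 < C * Real.exp L := by positivity
  rcases Nat.eq_zero_or_pos G.cliqueNum with h0 | h0
  · rw [h0, Nat.cast_zero, div_zero]; positivity
  set w := G.cliqueNum with hw
  have w1 : (1 : ℝ) ≤ w := by exact_mod_cast h0
  set t := ⌊L ^ 2 / (1.30591 ^ 2 * w)⌋₊ with ht
  have t1 : (t : ℝ) ≤ L ^ 2 / (1.30591 ^ 2 * w) := Nat.floor_le (by positivity)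
  have t2 : L ^ 2 / (1.30591 ^ 2 * w) < t + 1 := Nat.lt_floor_add_one _
  rw [le_div_iff₀ (by positivity)] at t1
  rw [div_lt_iff₀ (by positivity)] at t2
  have t3 : 1.30591 * Real.sqrt (w * t) ≤ L := by
    refine le_of_sq_le_sq_aux hL.le ?_
    rw [mul_pow, Real.sq_sqrt (by positivity)]
    linarith
  have h1 := chrom_le G (N := C * Real.exp L) (Nat.succ_pos t) fun X hX => by
    rcases h G w t X (le_trans (mul_le_mul_of_nonneg_left (Real.exp_le_exp.2 t3) (by linarith)) hX)
      with ⟨S, _, hS⟩ | hS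
    · have := hS.1.card_le_cliqueNum
      rw [hS.2] at this
      omega
    · exact hS
  rw [div_le_iff₀ (by linarith)]
  refine h1.trans ?_
  have h2 : (n : ℝ) / (t.succ : ℕ) ≤ n * 1.30591 ^ 2 / L ^ 2 * w := by
    push_cast
    rw [div_mul_eq_mul_div, div_le_div_iff₀ (by positivity) (by positivity)]
    have := mul_le_mul_of_nonneg_left t2.le (Nat.cast_nonneg (α := ℝ) n)
    linarith
  nlinarith

theorem result : ∀ᶠ n : ℕ in atTop,
    maxChromaticCliqueRatio n / ((n : ℝ) / Real.logb 2 n ^ 2) ≤ 3.55 := by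
  obtain ⟨C, hC, h⟩ := ram_unif
  have l2 : 0.6931471803 < Real.log 2 := Real.log_two_gt_d9
  have t1 : Tendsto (fun n : ℕ => Real.log n / 100000) atTop atTop :=
    (Real.tendsto_log_atTop.comp tendsto_natCast_atTop_atTop).atTop_div_const (by norm_num)
  have t2 := ((Real.tendsto_pow_mul_exp_neg_atTop_nhds_zero 2).comp t1).const_mul
    (C * 100000 ^ 2 / Real.log 2 ^ 2)
  rw [mul_zero] at t2
  filter_upwards [t2.eventually (gt_mem_nhds (show (0 : ℝ) < 0.0001 by norm_num)),
    eventually_ge_atTop 2] with n h1 h2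
  have n1 : (1 : ℝ) < n := by exact_mod_cast h2
  have y0 : 0 < Real.log n := Real.log_pos n1
  set y := Real.log n with hy
  have h3 := ratio_le hC (L := y - y / 100000) (by linarith) (h (Fin n))
  rw [Real.logb, ← hy, div_le_iff₀ (by positivity)]
  refine h3.trans ?_
  have e1 : Real.exp (y - y / 100000) = n * Real.exp (-(y / 100000)) := by
    rw [sub_eq_add_neg, Real.exp_add, hy, Real.exp_log (by linarith)]
  have a1 : C * Real.exp (y - y / 100000) ≤ 0.0001 * (n / (y / Real.log 2) ^ 2) := by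
    have b1 : C * Real.exp (y - y / 100000) = (C * 100000 ^ 2 / Real.log 2 ^ 2
        * ((y / 100000) ^ 2 * Real.exp (-(y / 100000)))) * (n / (y / Real.log 2) ^ 2) := by
      rw [e1]; field_simp
    rw [b1]
    exact mul_le_mul_of_nonneg_right h1.le (by positivity)
  have a2 : n * 1.30591 ^ 2 / (y - y / 100000) ^ 2 ≤ 3.5499 * (n / (y / Real.log 2) ^ 2) := by
    have b1 : (n : ℝ) * 1.30591 ^ 2 / (y - y / 100000) ^ 2
        = 1.30591 ^ 2 / 0.99999 ^ 2 * (n / y ^ 2) := by
      have : y - y / 100000 = 0.99999 * y := by ring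
      rw [this]; field_simp
    have b2 : 3.5499 * ((n : ℝ) / (y / Real.log 2) ^ 2)
        = 3.5499 * Real.log 2 ^ 2 * (n / y ^ 2) := by field_simp
    rw [b1, b2]
    refine mul_le_mul_of_nonneg_right ?_ (by positivity)
    have b3 : (0.6931471803 : ℝ) ^ 2 ≤ Real.log 2 ^ 2 := by gcongr
    norm_num at b3 ⊢
    linarith
  linarith

end Pool.Agent.Results.MP_327896_co.Limsup
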