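import Pool.Agent.Work.MP_327896_co.Unif

/-!
A Ramsey bound in terms of the product of the clique size and the independent set size.
-/

namespace Pool.Agent.Results.MP_327896_co.RamseyProduct

open Pool.Agent.Work.MP_327896_co

lemma exp_le : Real.exp 1.30591 ≤ 3.6911 := by
  have h1 := Real.exp_bound' (x := 0.30591) (by norm_num) (by norm_num) (n := 6) (by norm_num)
  have h2 : Real.exp 0.30591 ≤ 1.35787 := by
    refine h1.trans ?_
    simp only [Finset.sum_range_succ, Finset.sum_range_zero, Nat.factorial]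
    norm_num
  have h3 := Real.exp_one_lt_d9
  have h4 : Real.exp 1.30591 = Real.exp 1 * Real.exp 0.30591 := by
    rw [← Real.exp_add]; norm_num
  rw [h4]
  have := mul_le_mul h3.le h2 (Real.exp_pos _).le (by norm_num)
  linarith

theorem result : ∃ C : ℝ, ∀ s t n : ℕ, C * (3.6911 : ℝ) ^ Real.sqrt (s * t) ≤ n →
    ∀ G : SimpleGraph (Fin n),
      (∃ S, G.IsNClique (s + 1) S) ∨ ∃ S, G.IsNIndepSet (t + 1) S := by
  obtain ⟨C, hC, h⟩ := ram_unif
  refine ⟨C, fun s t n hn G => ?_⟩
  have h1 : Real.exp (1.30591 * Real.sqrt (s * t)) ≤ (3.6911 : ℝ) ^ Real.sqrt (s * t) := by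
    rw [Real.exp_mul]
    exact Real.rpow_le_rpow (Real.exp_pos _).le exp_le (Real.sqrt_nonneg _)
  rcases h (Fin n) G s t Finset.univ (by
    simp only [Finset.card_univ, Fintype.card_fin]
    exact le_trans (mul_le_mul_of_nonneg_left h1 (by linarith)) hn) with ⟨S, _, h2⟩ | ⟨S, _, h2⟩
  · exact Or.inl ⟨S, h2⟩
  · exact Or.inr ⟨S, h2⟩

end Pool.Agent.Results.MP_327896_co.RamseyProduct
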